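import Pool.Agent.Lib.MP_93f3b8_co.Graph

/-!
# From certificates to the six parameters
-/

namespace Pool.Agent.Lib.MP_93f3b8_co

variable {V : Type*}

theorem IsIrr.mono {G : SimpleGraph V} {S T : Finset V} (h : IsIrr G S) (hTS : T ⊆ S) :
    IsIrr G T := by
  intro v hv
  obtain ⟨u, h1, h2⟩ := h v (hTS hv)
  exact ⟨u, h1, fun w hw hwv => h2 w (hTS hw) hwv⟩

theorem IsInd.mono {G : SimpleGraph V} {S T : Finset V} (h : IsInd G S) (hTS : T ⊆ S) :
    IsInd G T := fun u hu v hv => h u (hTS hu) v (hTS hv)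

theorem IsDom.mono {G : SimpleGraph V} {S T : Finset V} (h : IsDom G S) (hST : S ⊆ T) :
    IsDom G T := by
  intro u
  obtain ⟨v, h1, h2⟩ := h u
  exact ⟨v, hST h1, h2⟩

/-- a minimal dominating set is irredundant -/
theorem irr_of_minimal [DecidableEq V] {G : SimpleGraph V} {S : Finset V}
    (h : Minimal (IsDom G) S) : IsIrr G S := by
  intro v hv
  by_contra hcon
  push Not at hcon
  have hdom : IsDom G (S.erase v) := by
    intro u
    obtain ⟨w, hw, hwu⟩ := h.1 u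
    by_cases hwv : w = v
    · subst hwv
      obtain ⟨z, hz, hzw, hzu⟩ := hcon u hwu
      exact ⟨z, Finset.mem_erase.mpr ⟨hzw, hz⟩, hzu⟩
    · exact ⟨w, Finset.mem_erase.mpr ⟨hwv, hw⟩, hwu⟩
  have := h.2 hdom (Finset.erase_subset _ _) hv
  exact absurd this (Finset.notMem_erase v S)

/-- a dominating irredundant set is a minimal dominating set -/
theorem minimal_of {G : SimpleGraph V} {S : Finset V} (hd : IsDom G S) (hi : IsIrr G S) :
    Minimal (IsDom G) S := by
  refine ⟨hd, ?_⟩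
  intro T hT hTS v hv
  obtain ⟨u, h1, h2⟩ := hi v hv
  obtain ⟨w, hw, hwu⟩ := hT u
  by_cases hwv : w = v
  · rw [← hwv]; exact hw
  · exact absurd hwu (h2 w (hTS hw) hwv)

/-- an independent dominating set is a maximal independent set -/
theorem maximal_of {G : SimpleGraph V} {S : Finset V} (hi : IsInd G S) (hd : IsDom G S) :
    Maximal (IsInd G) S := by
  refine ⟨hi, ?_⟩
  intro T hT hST v hv
  obtain ⟨w, hw, hwv⟩ := hd v
  rcases hwv with h | h
  · rw [h]; exact hw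
  · exact absurd h (hT w (hST hw) v hv)

/-- a maximal independent set is dominating -/
theorem dom_of_maximal [DecidableEq V] {G : SimpleGraph V} {S : Finset V}
    (h : Maximal (IsInd G) S) : IsDom G S := by
  intro u
  by_contra hcon
  push Not at hcon
  have hu : u ∉ S := fun hu => hcon u hu (Or.inl rfl)
  have hins : IsInd G (insert u S) := by
    intro a ha b hb hab
    rcases Finset.mem_insert.mp ha with h1 | h1 <;> rcases Finset.mem_insert.mp hb with h2 | h2
    · subst h1; subst h2; exact G.loopless.irrefl _ hab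
    · subst h1; exact hcon b h2 (Or.inr hab.symm)
    · subst h2; exact hcon a h1 (Or.inr hab)
    · exact h.1 a h1 b h2 hab
  exact hu (h.2 hins (Finset.subset_insert _ _) (Finset.mem_insert_self _ _))

/-- an irredundant set such that adding any vertex destroys irredundance is maximal -/
theorem maximalIrr_of [DecidableEq V] {G : SimpleGraph V} {S : Finset V} (hi : IsIrr G S)
    (h : ∀ u, u ∈ S ∨ ¬ IsIrr G (insert u S)) : Maximal (IsIrr G) S := by
  refine ⟨hi, ?_⟩
  intro T hT hST v hv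
  rcases h v with h1 | h1
  · exact h1
  · exact absurd (hT.mono (Finset.insert_subset hv hST)) h1

theorem le_sSup_of {P : Finset V → Prop} [Fintype V] {k : ℕ}
    (h : ∃ S : Finset V, P S ∧ k ≤ S.card) : k ≤ sSup {k | ∃ S : Finset V, P S ∧ S.card = k} := by
  obtain ⟨S, h1, h2⟩ := h
  refine le_trans h2 (le_csSup ⟨Fintype.card V, ?_⟩ ⟨S, h1, rfl⟩)
  rintro k ⟨T, _, rfl⟩
  exact Finset.card_le_univ T

theorem sSup_le_of {P : Finset V → Prop} {k : ℕ} (hne : ∃ S, P S)
    (h : ∀ S : Finset V, P S → S.card ≤ k) : sSup {k | ∃ S : Finset V, P S ∧ S.card = k} ≤ k := by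
  obtain ⟨S, hS⟩ := hne
  refine csSup_le ⟨_, S, hS, rfl⟩ ?_
  rintro j ⟨T, hT, rfl⟩
  exact h T hT

theorem sInf_le_of {P : Finset V → Prop} {k : ℕ}
    (h : ∃ S : Finset V, P S ∧ S.card ≤ k) : sInf {k | ∃ S : Finset V, P S ∧ S.card = k} ≤ k := by
  obtain ⟨S, h1, h2⟩ := h
  exact le_trans (Nat.sInf_le ⟨S, h1, rfl⟩) h2

theorem le_sInf_of {P : Finset V → Prop} {k : ℕ} (hne : ∃ S, P S)
    (h : ∀ S : Finset V, P S → k ≤ S.card) : k ≤ sInf {k | ∃ S : Finset V, P S ∧ S.card = k} := by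
  obtain ⟨S, hS⟩ := hne
  have hmem : sInf {k | ∃ S : Finset V, P S ∧ S.card = k}
      ∈ {k | ∃ S : Finset V, P S ∧ S.card = k} := Nat.sInf_mem ⟨_, S, hS, rfl⟩
  obtain ⟨T, hT, hTc⟩ := hmem
  rw [← hTc]
  exact h T hT

/-- The chain from certificates. -/
theorem chain {n : ℕ} (G : SimpleGraph (Fin n)) {a b c d e : ℕ}
    (h1 : ∃ S, Maximal (IsIrr G) S ∧ S.card ≤ a)
    (h2 : ∀ S, IsDom G S → a + 1 ≤ S.card)
    (h3 : ∃ S, IsDom G S ∧ S.card ≤ b)
    (h4 : ∀ S, IsInd G S → IsDom G S → b + 1 ≤ S.card)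
    (h5 : ∃ S, Maximal (IsInd G) S ∧ S.card ≤ c)
    (h6 : ∃ S, IsInd G S ∧ c + 1 ≤ S.card)
    (h7 : ∀ S, IsInd G S → S.card ≤ d)
    (h8 : ∃ S, Minimal (IsDom G) S ∧ d + 1 ≤ S.card)
    (h9 : ∀ S, IsIrr G S → IsDom G S → S.card ≤ e)
    (h10 : ∃ S, IsIrr G S ∧ e + 1 ≤ S.card) :
    irNum G < gammaNum G ∧ gammaNum G < iNum G ∧ iNum G < betaNum G ∧
      betaNum G < GammaNum G ∧ GammaNum G < IRNum G := by
  have i1 : irNum G ≤ a := sInf_le_of h1
  have i2 : a + 1 ≤ gammaNum G :=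
    le_sInf_of (by obtain ⟨S, hS, _⟩ := h3; exact ⟨S, hS⟩) h2
  have i3 : gammaNum G ≤ b := sInf_le_of h3
  have i4 : b + 1 ≤ iNum G :=
    le_sInf_of (by obtain ⟨S, hS, _⟩ := h5; exact ⟨S, hS⟩)
      (fun S hS => h4 S hS.1 (dom_of_maximal hS))
  have i5 : iNum G ≤ c := sInf_le_of h5
  have i6 : c + 1 ≤ betaNum G := le_sSup_of h6
  have i7 : betaNum G ≤ d := sSup_le_of (by obtain ⟨S, hS, _⟩ := h6; exact ⟨S, hS⟩) h7
  have i8 : d + 1 ≤ GammaNum G := le_sSup_of h8
  have i9 : GammaNum G ≤ e := sSup_le_of (by obtain ⟨S, hS, _⟩ := h8; exact ⟨S, hS⟩)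
    (fun S hS => h9 S (irr_of_minimal hS) hS.1)
  have i10 : e + 1 ≤ IRNum G := le_sSup_of h10
  omega

theorem allNeg_strip (f : Neg → Bool) : ∀ ls : List Level, allNeg f (strip ls) = allNeg f ls := by
  intro ls
  induction ls with
  | nil => rfl
  | cons l rest ih => simp only [strip, allNeg, ih]

theorem holdsPos_strip {n : ℕ} (T : Finset (Fin n)) :
    ∀ (ls : List Level) (i : ℕ), HoldsPos T i (strip ls) := by
  intro ls
  induction ls with
  | nil => intro _; trivial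
  | cons l rest ih => intro i; exact ⟨fun _ _ => rfl, ih _⟩

theorem holdsPos_nil {n : ℕ} (T : Finset (Fin n)) :
    ∀ (ls : List Level) (i : ℕ), ls.all (fun l => l.2.1.isEmpty) = true → HoldsPos T i ls := by
  intro ls
  induction ls with
  | nil => intro _ _; trivial
  | cons l rest ih =>
    intro i h
    rw [List.all_cons, Bool.and_eq_true] at h
    refine ⟨fun m _ => ?_, ih _ h.2⟩
    rw [List.isEmpty_iff.mp h.1]
    rfl

end Pool.Agent.Lib.MP_93f3b8_co
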