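import Pool.Agent.Lib.MP_93f3b8_co.Chain

/-!
# The data of the graph on 34 vertices and the four searches
-/

set_option maxRecDepth 100000

namespace Pool.Agent.Lib.MP_93f3b8_co

/-- the closed neighbourhood masks of the graph -/
def CL : List ℕ :=
  [45, 46, 71, 27, 184, 51, 836, 912, 2496, 1728, 265728, 7424, 30720, 61440, 159744, 237568, 491520, 245760, 852992, 3932160, 540540928, 7864320, 56623104, 226492416, 62914560, 121634816, 243269632, 478150656, 6845104128, 10201595904, 12348030976, 7784628224, 15300820992, 14495514624]

/-- the graph -/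
abbrev Gr : SimpleGraph (Fin 34) := gr 34 CL

/-- levels for irredundant (and dominating) sets -/
def LvIrr : List Level :=
  [(15, [], []),
   (15, [], []),
   (14, [], [(1, [44, 70, 26, 50]), (2, [44, 69, 25, 49])]),
   (14, [], [(1, [44, 70, 26, 50]), (2, [44, 69, 25, 49])]),
   (13, [27], [(1, [44, 70, 26, 50]), (2, [44, 69, 25, 49]), (8, [37, 38, 19, 176])]),
   (13, [45, 46, 51], [(1, [44, 70, 26, 50]), (2, [44, 69, 25, 49]), (8, [37, 38, 19, 176]), (32, [13, 14, 152, 19])]),
   (12, [71], [(1, [44, 70, 26, 50]), (2, [44, 69, 25, 49]), (4, [41, 42, 67, 832])]),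
   (12, [184], [(8, [37, 38, 19, 176]), (16, [11, 168, 35, 896]), (32, [13, 14, 152, 19]), (64, [7, 772, 2432, 1664]), (128, [56, 784, 2368, 1600])]),
   (11, [], [(4, [41, 42, 67, 832]), (16, [11, 168, 35, 896]), (64, [7, 772, 2432, 1664]), (128, [56, 784, 2368, 1600])]),
   (11, [836, 912], [(4, [41, 42, 67, 832]), (16, [11, 168, 35, 896]), (64, [7, 772, 2432, 1664]), (128, [56, 784, 2368, 1600])]),
   (10, [1728], [(64, [7, 772, 2432, 1664]), (128, [56, 784, 2368, 1600]), (256, [580, 656, 2240, 7168]), (512, [324, 400, 1216, 265216])]),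
   (10, [2496], [(64, [7, 772, 2432, 1664]), (128, [56, 784, 2368, 1600]), (256, [580, 656, 2240, 7168]), (512, [324, 400, 1216, 265216])]),
   (9, [7424], [(256, [580, 656, 2240, 7168]), (2048, [448, 263680, 5376, 28672])]),
   (9, [], [(2048, [448, 263680, 5376, 28672]), (4096, [3328, 26624, 57344, 155648])]),
   (9, [30720], [(2048, [448, 263680, 5376, 28672]), (4096, [3328, 26624, 57344, 155648])]),
   (8, [61440], [(4096, [3328, 26624, 57344, 155648]), (8192, [22528, 53248, 151552, 229376]), (16384, [14336, 45056, 143360, 229376])]),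
   (8, [], [(1024, [704, 264704, 6400, 851968]), (8192, [22528, 53248, 151552, 229376]), (16384, [14336, 45056, 143360, 229376]), (32768, [28672, 204800, 458752, 212992]), (65536, [172032, 425984, 180224, 787456])]),
   (7, [159744, 237568, 245760], [(4096, [3328, 26624, 57344, 155648]), (8192, [22528, 53248, 151552, 229376]), (16384, [14336, 45056, 143360, 229376]), (32768, [28672, 204800, 458752, 212992]), (65536, [172032, 425984, 180224, 787456]), (131072, [28672, 106496, 360448, 114688])]),
   (7, [265728, 491520], [(512, [324, 400, 1216, 265216]), (1024, [704, 264704, 6400, 851968]), (2048, [448, 263680, 5376, 28672]), (32768, [28672, 204800, 458752, 212992]), (65536, [172032, 425984, 180224, 787456]), (131072, [28672, 106496, 360448, 114688])]),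
   (6, [852992], [(1024, [704, 264704, 6400, 851968]), (65536, [172032, 425984, 180224, 787456]), (262144, [3584, 229376, 590848, 3670016])]),
   (6, [], [(262144, [3584, 229376, 590848, 3670016]), (524288, [328704, 3407872, 540016640, 7340032])]),
   (6, [3932160], [(262144, [3584, 229376, 590848, 3670016]), (524288, [328704, 3407872, 540016640, 7340032])]),
   (6, [7864320], [(524288, [328704, 3407872, 540016640, 7340032]), (2097152, [1835008, 538443776, 5767168, 54525952])]),
   (5, [], []),
   (5, [], [(2097152, [1835008, 538443776, 5767168, 54525952]), (4194304, [3670016, 52428800, 58720256, 117440512]), (16777216, [39845888, 209715200, 46137344, 104857600])]),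
   (5, [56623104, 62914560], [(2097152, [1835008, 538443776, 5767168, 54525952]), (4194304, [3670016, 52428800, 58720256, 117440512]), (16777216, [39845888, 209715200, 46137344, 104857600]), (33554432, [23068672, 29360128, 88080384, 209715200])]),
   (4, [121634816], [(4194304, [3670016, 52428800, 58720256, 117440512]), (8388608, [218103808, 54525952, 234881024, 469762048]), (16777216, [39845888, 209715200, 46137344, 104857600]), (33554432, [23068672, 29360128, 88080384, 209715200]), (67108864, [159383552, 54525952, 176160768, 411041792])]),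
   (3, [226492416, 243269632], [(8388608, [218103808, 54525952, 234881024, 469762048]), (16777216, [39845888, 209715200, 46137344, 104857600]), (33554432, [23068672, 29360128, 88080384, 209715200]), (67108864, [159383552, 54525952, 176160768, 411041792])]),
   (3, [478150656], [(8388608, [218103808, 54525952, 234881024, 469762048]), (67108864, [159383552, 54525952, 176160768, 411041792]), (134217728, [92274688, 109051904, 343932928, 6710886400])]),
   (2, [540540928], [(524288, [328704, 3407872, 540016640, 7340032]), (1048576, [2883584, 539492352, 6815744, 10200547328]), (2097152, [1835008, 538443776, 5767168, 54525952])]),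
   (2, [], [(1048576, [2883584, 539492352, 6815744, 10200547328]), (536870912, [3670016, 9664724992, 11811160064, 13958643712]), (1073741824, [9127854080, 11274289152, 6710886400, 13421772800])]),
   (2, [], [(134217728, [92274688, 109051904, 343932928, 6710886400]), (268435456, [209715200, 6576668672, 7516192768, 15032385536]), (536870912, [3670016, 9664724992, 11811160064, 13958643712]), (1073741824, [9127854080, 11274289152, 6710886400, 13421772800]), (2147483648, [4697620480, 10200547328, 5637144576, 13153337344])]),
   (1, [6845104128, 7784628224], [(134217728, [92274688, 109051904, 343932928, 6710886400]), (268435456, [209715200, 6576668672, 7516192768, 15032385536]), (536870912, [3670016, 9664724992, 11811160064, 13958643712]), (1073741824, [9127854080, 11274289152, 6710886400, 13421772800]), (2147483648, [4697620480, 10200547328, 5637144576, 13153337344]), (4294967296, [2550136832, 3489660928, 11005853696, 10200547328])]),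
   (0, [10201595904, 12348030976, 15300820992, 14495514624], [(1048576, [2883584, 539492352, 6815744, 10200547328]), (268435456, [209715200, 6576668672, 7516192768, 15032385536]), (536870912, [3670016, 9664724992, 11811160064, 13958643712]), (1073741824, [9127854080, 11274289152, 6710886400, 13421772800]), (2147483648, [4697620480, 10200547328, 5637144576, 13153337344]), (4294967296, [2550136832, 3489660928, 11005853696, 10200547328]), (8589934592, [1611661312, 3758096384, 6710886400, 5905580032])])]

/-- levels for independent sets -/
def LvInd : List Level :=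
  [(13, [], []),
   (13, [], []),
   (13, [], [(4, [1]), (4, [2])]),
   (12, [], [(8, [1]), (8, [2])]),
   (12, [], [(16, [8])]),
   (11, [], [(32, [1]), (32, [2]), (32, [16])]),
   (10, [], [(64, [4])]),
   (10, [], [(128, [16])]),
   (10, [], [(256, [64]), (256, [128])]),
   (9, [], [(512, [64]), (512, [128])]),
   (9, [], [(1024, [512])]),
   (8, [], [(2048, [256]), (2048, [1024])]),
   (8, [], [(4096, [2048])]),
   (8, [], [(8192, [4096])]),
   (7, [], [(16384, [4096]), (16384, [8192])]),
   (7, [], [(32768, [8192])]),
   (7, [], [(65536, [32768])]),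
   (6, [], [(131072, [16384]), (131072, [32768]), (131072, [65536])]),
   (5, [], [(262144, [1024]), (262144, [65536])]),
   (5, [], [(524288, [262144])]),
   (5, [], [(1048576, [524288])]),
   (4, [], [(2097152, [524288]), (2097152, [1048576])]),
   (4, [], [(4194304, [2097152])]),
   (4, [], []),
   (4, [], [(16777216, [4194304]), (16777216, [8388608])]),
   (3, [], [(33554432, [4194304]), (33554432, [16777216])]),
   (3, [], [(67108864, [8388608]), (67108864, [33554432])]),
   (2, [], [(134217728, [8388608]), (134217728, [67108864])]),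
   (2, [], [(268435456, [134217728])]),
   (2, [], [(536870912, [1048576])]),
   (2, [], [(1073741824, [536870912])]),
   (1, [], [(2147483648, [268435456]), (2147483648, [1073741824])]),
   (1, [], [(4294967296, [268435456]), (4294967296, [2147483648])]),
   (0, [], [(8589934592, [536870912]), (8589934592, [1073741824]), (8589934592, [4294967296])])]

/-- levels for complements of (independent) dominating sets -/
def LvDom : List Level :=
  [(24, [], []),
   (23, [], []),
   (23, [5, 6], []),
   (22, [9, 10], []),
   (21, [24], [(16, [1, 2, 8])]),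
   (20, [33, 34, 48], [(32, [1, 4, 8]), (32, [2, 4, 8]), (32, [1, 2, 16])]),
   (20, [68], [(64, [1, 2, 4])]),
   (19, [144], [(128, [8, 16, 32])]),
   (18, [320, 384], []),
   (17, [576, 640], [(512, [4, 64, 256]), (512, [16, 128, 256])]),
   (16, [1536], [(1024, [64, 128, 512])]),
   (15, [2304, 3072], [(2048, [64, 128, 256])]),
   (15, [6144], [(4096, [256, 1024, 2048])]),
   (14, [12288], []),
   (14, [20480, 24576], [(16384, [2048, 4096, 8192])]),
   (13, [40960], [(32768, [4096, 8192, 16384])]),
   (12, [98304], []),
   (11, [147456, 163840, 196608], [(131072, [4096, 8192, 16384]), (131072, [8192, 32768, 65536]), (131072, [16384, 32768, 65536])]),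
   (11, [263168, 327680], [(262144, [512, 1024, 2048]), (262144, [32768, 65536, 131072])]),
   (10, [786432], [(524288, [1024, 65536, 262144])]),
   (9, [1572864], []),
   (8, [2621440, 3145728], [(2097152, [262144, 524288, 1048576])]),
   (8, [6291456], [(4194304, [524288, 1048576, 2097152])]),
   (8, [], []),
   (7, [20971520, 25165824], []),
   (6, [37748736, 50331648], [(33554432, [2097152, 4194304, 16777216]), (33554432, [4194304, 8388608, 16777216])]),
   (5, [75497472, 100663296], [(67108864, [4194304, 16777216, 33554432])]),
   (4, [142606336, 201326592], [(134217728, [8388608, 16777216, 67108864]), (134217728, [8388608, 33554432, 67108864])]),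
   (4, [402653184], [(268435456, [8388608, 67108864, 134217728])]),
   (4, [537919488], [(536870912, [524288, 1048576, 2097152])]),
   (3, [1610612736], []),
   (2, [2415919104, 3221225472], []),
   (1, [4563402752, 6442450944], [(4294967296, [134217728, 268435456, 2147483648]), (4294967296, [268435456, 1073741824, 2147483648])]),
   (0, [9126805504, 9663676416, 12884901888], [(8589934592, [1048576, 536870912, 1073741824]), (8589934592, [536870912, 1073741824, 2147483648]), (8589934592, [268435456, 2147483648, 4294967296]), (8589934592, [536870912, 1073741824, 4294967296])])]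

theorem good : Good 34 CL := by
  unfold Good
  decide +kernel

theorem cubic : ∀ v : Fin 34, (Finset.univ.filter (fun u => Gr.Adj v u)).card = 3 := by
  decide +kernel

/-- the distances from vertex `0` -/
def DI : List ℕ := [0, 2, 1, 1, 2, 1, 2, 3, 3, 3, 4, 4, 5, 6, 6, 7, 6, 7, 5, 6, 7, 7, 8, 10, 9, 9, 10, 11, 11, 8, 9, 10, 10, 9]

theorem lower_nbr : ∀ v : Fin 34, v = 0 ∨
    ∃ u : Fin 34, DI.getD u 0 < DI.getD v 0 ∧ Gr.Adj v u := by
  decide +kernel

theorem connected : Gr.Connected := by
  have key : ∀ k : ℕ, ∀ v : Fin 34, DI.getD v 0 ≤ k → Gr.Reachable v 0 := by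
    intro k
    induction k with
    | zero =>
      intro v hv
      rcases lower_nbr v with h | ⟨u, hu, _⟩
      · rw [h]
      · omega
    | succ k ih =>
      intro v hv
      rcases lower_nbr v with h | ⟨u, hu, hadj⟩
      · rw [h]
      · exact hadj.reachable.trans (ih u (by omega))
  have h0 : ∀ v : Fin 34, Gr.Reachable v 0 := fun v => key _ v le_rfl
  exact SimpleGraph.Connected.mk (fun u v => (h0 u).trans (h0 v).symm)

theorem irr_neg : allNeg (okIrr 34 CL) LvIrr = true := by decide +kernel

theorem irr_pos : allPos (posDom 34 CL) 0 LvIrr = true := by decide +kernel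

theorem irr_dolls : dolls LvIrr 1 16 = true := by decide +kernel

theorem irr_final : dfs 15 LvIrr 1 0 0 = true := by decide +kernel

theorem ind_neg : allNeg (okInd 34 CL) LvInd = true := by decide +kernel

theorem ind_dolls : dolls LvInd 1 14 = true := by decide +kernel

theorem ind_final : dfs 14 LvInd 1 0 0 = true := by decide +kernel

theorem dom_neg : allNeg (okDom 34 CL) LvDom = true := by decide +kernel

theorem dom_pos : allPos (posInd 34 CL) 0 LvDom = true := by decide +kernel

theorem dom_dolls : dolls LvDom 1 25 = true := by decide +kernel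

theorem dom_final : dfs 25 (strip LvDom) 1 0 0 = true := by decide +kernel

theorem domind_final : dfs 24 LvDom 1 0 0 = true := by decide +kernel

theorem strip_dolls : dolls (strip LvDom) 1 25 = true := by decide +kernel

/-- `γ ≥ 10` -/
theorem dom_card (S : Finset (Fin 34)) (hS : IsDom Gr S) : 9 + 1 ≤ S.card := by
  have h := engine (fun T => IsDom Gr Tᶜ)
    (fun T U hT hU => IsDom.mono hT (Finset.compl_subset_compl.mpr hU)) (strip LvDom) 25 25
    (fun T hT => holdsNeg_of (okDom 34 CL) (fun p hp => okDom_sound good hT p hp) _ _
      (by rw [allNeg_strip]; exact dom_neg)) (by rw [strip_length]; rfl) strip_dolls Sᶜ (by simpa using hS)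
    (holdsPos_strip _ _ _) dom_final
  have h2 : Sᶜ.card + S.card = 34 := by
    rw [Finset.card_compl_add_card]; simp
  omega

/-- `i ≥ 11` -/
theorem domind_card (S : Finset (Fin 34)) (hI : IsInd Gr S) (hS : IsDom Gr S) :
    10 + 1 ≤ S.card := by
  have h := engine (fun T => IsDom Gr Tᶜ)
    (fun T U hT hU => IsDom.mono hT (Finset.compl_subset_compl.mpr hU)) LvDom 25 24
    (fun T hT => holdsNeg_of (okDom 34 CL) (fun p hp => okDom_sound good hT p hp) _ _ dom_neg)
    rfl dom_dolls Sᶜ (by simpa using hS)
    (holdsPos_of (posInd 34 CL) (fun i c h => posInd_sound good (by simpa using hI) i c h) _ _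
      dom_pos) domind_final
  have h2 : Sᶜ.card + S.card = 34 := by
    rw [Finset.card_compl_add_card]; simp
  omega

/-- `β₀ ≤ 13` -/
theorem ind_card (S : Finset (Fin 34)) (hS : IsInd Gr S) : S.card ≤ 13 := by
  have h := engine (fun T => IsInd Gr T) (fun T U hT hU => hT.mono hU) LvInd 14 14
    (fun T hT => holdsNeg_of (okInd 34 CL) (fun p hp => okInd_sound good hT p hp) _ _ ind_neg)
    rfl ind_dolls S hS (holdsPos_nil _ _ _ (by decide +kernel)) ind_final
  omega

/-- `Γ ≤ 14` -/
theorem irr_card (S : Finset (Fin 34)) (hI : IsIrr Gr S) (hS : IsDom Gr S) :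
    S.card ≤ 14 := by
  have h := engine (fun T => IsIrr Gr T) (fun T U hT hU => hT.mono hU) LvIrr 16 15
    (fun T hT => holdsNeg_of (okIrr 34 CL) (fun p hp => okIrr_sound good hT p hp) _ _ irr_neg)
    rfl irr_dolls S hI
    (holdsPos_of (posDom 34 CL) (fun i c h => posDom_sound good hS i c h) _ _ irr_pos) irr_final
  omega

/-! ## Witnesses -/

/-- the set with bit mask `m` -/
def st (m : ℕ) : Finset (Fin 34) := Finset.univ.filter (fun v => m.testBit v = true)

theorem w_ir : Maximal (IsIrr Gr) (st 405869248) ∧ (st 405869248).card ≤ 9 := by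
  refine ⟨maximalIrr_of ?_ ?_, ?_⟩
  · unfold IsIrr; decide +kernel
  · unfold IsIrr; decide +kernel
  · decide +kernel

theorem w_ga : IsDom Gr (st 818188421) ∧ (st 818188421).card ≤ 10 := by
  refine ⟨?_, ?_⟩
  · unfold IsDom; decide +kernel
  · decide +kernel

theorem w_i : Maximal (IsInd Gr) (st 818188371) ∧ (st 818188371).card ≤ 11 := by
  refine ⟨maximal_of ?_ ?_, ?_⟩
  · unfold IsInd; decide +kernel
  · unfold IsDom; decide +kernel
  · decide +kernel

theorem w_be : IsInd Gr (st 1356212307) ∧ 11 + 1 ≤ (st 1356212307).card := by
  refine ⟨?_, ?_⟩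
  · unfold IsInd; decide +kernel
  · decide +kernel

theorem w_Ga : Minimal (IsDom Gr) (st 6521381203) ∧ 13 + 1 ≤ (st 6521381203).card := by
  refine ⟨minimal_of ?_ ?_, ?_⟩
  · unfold IsDom; decide +kernel
  · unfold IsIrr; decide +kernel
  · decide +kernel

theorem w_IR : IsIrr Gr (st 6521647699) ∧ 14 + 1 ≤ (st 6521647699).card := by
  refine ⟨?_, ?_⟩
  · unfold IsIrr; decide +kernel
  · decide +kernel

theorem Gr_chain : irNum Gr < gammaNum Gr ∧ gammaNum Gr < iNum Gr ∧ iNum Gr < betaNum Gr ∧
    betaNum Gr < GammaNum Gr ∧ GammaNum Gr < IRNum Gr :=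
  chain Gr ⟨_, w_ir⟩ dom_card ⟨_, w_ga⟩ domind_card ⟨_, w_i⟩ ⟨_, w_be⟩ ind_card ⟨_, w_Ga⟩
    irr_card ⟨_, w_IR⟩

end Pool.Agent.Lib.MP_93f3b8_co
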