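import Mathlib

/-!
# The six parameters of the domination chain

Definitions of dominating, independent and irredundant sets of a finite simple graph and of the
six numbers `ir`, `γ`, `i`, `β₀`, `Γ`, `IR`, exactly as in the problem file.
-/

namespace Pool.Agent.Lib.MP_93f3b8_co

variable {V : Type*}

/-- `u` lies in the closed neighbourhood `N[v]` of `v` in `G`. -/
def Cl (G : SimpleGraph V) (v u : V) : Prop := u = v ∨ G.Adj v u

/-- `S` is a dominating set of `G`: the closed neighbourhoods of its vertices cover `V`. -/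
def IsDom (G : SimpleGraph V) (S : Finset V) : Prop := ∀ u, ∃ v ∈ S, Cl G v u

/-- `S` is an independent set of `G`. -/
def IsInd (G : SimpleGraph V) (S : Finset V) : Prop := ∀ u ∈ S, ∀ v ∈ S, ¬ G.Adj u v

/-- `S` is irredundant in `G`: every `v ∈ S` has a private neighbour, that is a vertex
of `N[v]` which lies in no `N[w]` with `w ∈ S`, `w ≠ v`. -/
def IsIrr (G : SimpleGraph V) (S : Finset V) : Prop :=
  ∀ v ∈ S, ∃ u, Cl G v u ∧ ∀ w ∈ S, w ≠ v → ¬ Cl G w u

/-- `γ(G)`: the least size of a dominating set. -/
noncomputable def gammaNum (G : SimpleGraph V) : ℕ :=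
  sInf {k | ∃ S : Finset V, IsDom G S ∧ S.card = k}

/-- `Γ(G)`: the greatest size of an (inclusion-)minimal dominating set. -/
noncomputable def GammaNum (G : SimpleGraph V) : ℕ :=
  sSup {k | ∃ S : Finset V, Minimal (IsDom G) S ∧ S.card = k}

/-- `i(G)`: the least size of an (inclusion-)maximal independent set. -/
noncomputable def iNum (G : SimpleGraph V) : ℕ :=
  sInf {k | ∃ S : Finset V, Maximal (IsInd G) S ∧ S.card = k}

/-- `β₀(G)`: the greatest size of an independent set. -/
noncomputable def betaNum (G : SimpleGraph V) : ℕ :=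
  sSup {k | ∃ S : Finset V, IsInd G S ∧ S.card = k}

/-- `ir(G)`: the least size of an (inclusion-)maximal irredundant set. -/
noncomputable def irNum (G : SimpleGraph V) : ℕ :=
  sInf {k | ∃ S : Finset V, Maximal (IsIrr G) S ∧ S.card = k}

/-- `IR(G)`: the greatest size of an irredundant set. -/
noncomputable def IRNum (G : SimpleGraph V) : ℕ :=
  sSup {k | ∃ S : Finset V, IsIrr G S ∧ S.card = k}

end Pool.Agent.Lib.MP_93f3b8_co
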