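import Mathlib

/-!
# A verified branch and bound over subsets of `Fin n`

Subsets `T` of `Fin n` are decided vertex by vertex.  `Rep T i m` says that the number `m` is the
bit mask of `T ∩ [0, i)`.
-/

namespace Pool.Agent.Lib.MP_93f3b8_co

/-- `m` is the bit mask of the part of `T` below `i`. -/
def Rep {n : ℕ} (T : Finset (Fin n)) (i m : ℕ) : Prop :=
  ∀ j : ℕ, m.testBit j = true ↔ j < i ∧ ∃ h : j < n, (⟨j, h⟩ : Fin n) ∈ T

/-- number of elements of `T` below `i` -/
def cnt {n : ℕ} (T : Finset (Fin n)) (i : ℕ) : ℕ := (T.filter (fun j : Fin n => (j : ℕ) < i)).card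

/-- number of elements of `T` at or above `i` -/
def suf {n : ℕ} (T : Finset (Fin n)) (i : ℕ) : ℕ := (T.filter (fun j : Fin n => i ≤ (j : ℕ))).card

theorem cnt_add_suf {n : ℕ} (T : Finset (Fin n)) (i : ℕ) : cnt T i + suf T i = T.card := by
  unfold cnt suf
  rw [← Finset.card_filter_add_card_filter_not (s := T) (fun j : Fin n => (j : ℕ) < i)]
  congr 2
  ext j
  simp

theorem cnt_succ {n : ℕ} (T : Finset (Fin n)) (i : ℕ) (h : i < n) :
    cnt T (i + 1) = cnt T i + (if (⟨i, h⟩ : Fin n) ∈ T then 1 else 0) := by
  unfold cnt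
  split_ifs with hm
  · have : T.filter (fun j : Fin n => (j : ℕ) < i + 1)
        = insert (⟨i, h⟩ : Fin n) (T.filter (fun j : Fin n => (j : ℕ) < i)) := by
      ext j
      simp only [Finset.mem_filter, Finset.mem_insert]
      constructor
      · rintro ⟨h1, h2⟩
        rcases Nat.lt_succ_iff_lt_or_eq.mp h2 with h3 | h3
        · exact Or.inr ⟨h1, h3⟩
        · exact Or.inl (Fin.ext h3)
      · rintro (h1 | h1)
        · subst h1; exact ⟨hm, Nat.lt_succ_self _⟩
        · exact ⟨h1.1, Nat.lt_succ_of_lt h1.2⟩
    rw [this, Finset.card_insert_of_notMem]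
    simp
  · rw [Nat.add_zero]
    congr 1
    ext j
    simp only [Finset.mem_filter]
    constructor
    · rintro ⟨h1, h2⟩
      rcases Nat.lt_succ_iff_lt_or_eq.mp h2 with h3 | h3
      · exact ⟨h1, h3⟩
      · exact absurd (by rwa [show j = (⟨i, h⟩ : Fin n) from Fin.ext h3] at h1) hm
    · rintro ⟨h1, h2⟩
      exact ⟨h1, Nat.lt_succ_of_lt h2⟩

theorem suf_le_succ {n : ℕ} (T : Finset (Fin n)) (i : ℕ) : suf T i ≤ suf T (i + 1) + 1 := by
  have h1 := cnt_add_suf T i
  have h2 := cnt_add_suf T (i + 1)
  by_cases h : i < n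
  · have := cnt_succ T i h
    split_ifs at this <;> omega
  · have : suf T i = 0 := by
      unfold suf
      rw [Finset.card_eq_zero, Finset.filter_eq_empty_iff]
      intro j _ hj
      have := j.2
      omega
    omega

theorem Rep.out {n : ℕ} {T : Finset (Fin n)} {i m : ℕ} (h : Rep T i m) (hi : i < n)
    (hm : (⟨i, hi⟩ : Fin n) ∉ T) : Rep T (i + 1) m := by
  intro j
  rw [h j]
  constructor
  · rintro ⟨h1, h2⟩; exact ⟨Nat.lt_succ_of_lt h1, h2⟩
  · rintro ⟨h1, h2, h3⟩
    rcases Nat.lt_succ_iff_lt_or_eq.mp h1 with h4 | h4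
    · exact ⟨h4, h2, h3⟩
    · subst h4; exact absurd h3 hm

theorem Rep.in {n : ℕ} {T : Finset (Fin n)} {i m : ℕ} (h : Rep T i m) (hi : i < n)
    (hm : (⟨i, hi⟩ : Fin n) ∈ T) : Rep T (i + 1) (m ||| 2 ^ i) := by
  intro j
  rw [Nat.testBit_or, Bool.or_eq_true, h j, Nat.testBit_two_pow]
  simp only [decide_eq_true_eq]
  constructor
  · rintro (⟨h1, h2⟩ | h1)
    · exact ⟨Nat.lt_succ_of_lt h1, h2⟩
    · subst h1; exact ⟨Nat.lt_succ_self _, hi, hm⟩
  · rintro ⟨h1, h2, h3⟩
    rcases Nat.lt_succ_iff_lt_or_eq.mp h1 with h4 | h4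
    · exact Or.inl ⟨h4, h2, h3⟩
    · exact Or.inr h4.symm

/-- a negative clause: it forbids that `T` meets the mask `p.1` and all the masks in `p.2` -/
abbrev Neg := ℕ × List ℕ

/-- do all masks in the list meet `m`? -/
def meetsAll (m : ℕ) : List ℕ → Bool
  | [] => true
  | c :: t => !(Nat.beq (Nat.land m c) 0) && meetsAll m t

/-- does some negative clause fire? -/
def fires (m : ℕ) : List Neg → Bool
  | [] => false
  | p :: t => (!(Nat.beq (Nat.land m p.1) 0) && meetsAll m p.2) || fires m t

/-- does some mask in the list miss `m`? -/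
def misses (m : ℕ) : List ℕ → Bool
  | [] => false
  | c :: t => Nat.beq (Nat.land m c) 0 || misses m t

/-- one level of the search: the bound on the number of later elements, the positive clauses
decided at this level and the negative clauses to be tested at this level -/
abbrev Level := ℕ × List ℕ × List Neg

/-- The search.  It returns `true` when no leaf survives. -/
def dfs (t : ℕ) : List Level → ℕ → ℕ → ℕ → Bool
  | [], _, _, _ => false
  | l :: rest, bit, k, m =>
    (Nat.blt (Nat.add k l.1) t || (misses m l.2.1 || dfs t rest (Nat.mul 2 bit) k m)) &&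
    (fires (Nat.lor m bit) l.2.2 || (Nat.blt (Nat.add (Nat.succ k) l.1) t ||
      (misses (Nat.lor m bit) l.2.1 ||
        dfs t rest (Nat.mul 2 bit) (Nat.succ k) (Nat.lor m bit))))

/-- the clauses of the levels hold for `T` (starting at level `i`) -/
def Holds {n : ℕ} (T : Finset (Fin n)) : ℕ → List Level → Prop
  | _, [] => True
  | i, l :: rest => suf T (i + 1) ≤ l.1 ∧
      (∀ m, Rep T (i + 1) m → misses m l.2.1 = false) ∧
      (∀ m, Rep T (i + 1) m → fires m l.2.2 = false) ∧ Holds T (i + 1) rest

theorem dfs_sound {n : ℕ} (T : Finset (Fin n)) (t : ℕ) :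
    ∀ (ls : List Level) (i k m : ℕ), Holds T i ls → i + ls.length = n → Rep T i m →
      cnt T i = k → dfs t ls (2 ^ i) k m = true → T.card < t := by
  intro ls
  induction ls with
  | nil => intro i k m _ _ _ _ h; simp [dfs] at h
  | cons l rest ih =>
    intro i k m hH hlen hR hk h
    obtain ⟨hsuf, hd, hn, hrest⟩ := hH
    have hi : i < n := by simp at hlen; omega
    have hlen' : i + 1 + rest.length = n := by simp at hlen; omega
    have hcard := cnt_add_suf T (i + 1)
    have hc := cnt_succ T i hi
    have hpow : Nat.mul 2 (2 ^ i) = 2 ^ (i + 1) := by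
      rw [pow_succ, mul_comm]; rfl
    rw [dfs, hpow, Bool.and_eq_true] at h
    obtain ⟨h1, h2⟩ := h
    by_cases hm : (⟨i, hi⟩ : Fin n) ∈ T
    · rw [if_pos hm] at hc
      have hR' : Rep T (i + 1) (Nat.lor m (2 ^ i)) := hR.in hi hm
      rw [Bool.or_eq_true, Bool.or_eq_true, Bool.or_eq_true, hn _ hR', hd _ hR'] at h2
      rcases h2 with h2 | h2 | h2 | h2
      · exact absurd h2 (by simp)
      · have : (k + 1) + l.1 < t := by simpa [Nat.blt_eq] using h2
        omega
      · exact absurd h2 (by simp)
      · exact ih (i + 1) (k + 1) _ hrest hlen' hR' (by omega) h2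
    · rw [if_neg hm] at hc
      have hR' : Rep T (i + 1) m := hR.out hi hm
      rw [Bool.or_eq_true, Bool.or_eq_true, hd _ hR'] at h1
      rcases h1 with h1 | h1 | h1
      · have : k + l.1 < t := by simpa [Nat.blt_eq] using h1
        omega
      · exact absurd h1 (by simp)
      · exact ih (i + 1) k _ hrest hlen' hR' (by omega) h1

/-! ## Russian doll bounds -/

/-- forget the positive clauses -/
def strip : List Level → List Level
  | [] => []
  | l :: rest => (l.1, [], l.2.2) :: strip rest

/-- Check of all the suffix bounds: `R` bounds the part at or above the level of the list. -/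
def dolls : List Level → ℕ → ℕ → Bool
  | [], _, _ => true
  | l :: rest, bit, R =>
    (Nat.ble (Nat.succ l.1) R || dfs (Nat.succ R) (strip (l :: rest)) bit 0 0) &&
      dolls rest (Nat.mul 2 bit) l.1

/-- the negative clauses of the levels hold for `T` (starting at level `i`) -/
def HoldsNeg {n : ℕ} (T : Finset (Fin n)) : ℕ → List Level → Prop
  | _, [] => True
  | i, l :: rest => (∀ m, Rep T (i + 1) m → fires m l.2.2 = false) ∧ HoldsNeg T (i + 1) rest

/-- the positive clauses of the levels hold for `T` (starting at level `i`) -/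
def HoldsPos {n : ℕ} (T : Finset (Fin n)) : ℕ → List Level → Prop
  | _, [] => True
  | i, l :: rest => (∀ m, Rep T (i + 1) m → misses m l.2.1 = false) ∧ HoldsPos T (i + 1) rest

/-- the suffix bounds of the levels hold for `T` (starting at level `i`) -/
def HoldsSuf {n : ℕ} (T : Finset (Fin n)) : ℕ → List Level → Prop
  | _, [] => True
  | i, l :: rest => suf T (i + 1) ≤ l.1 ∧ HoldsSuf T (i + 1) rest

theorem holds_of {n : ℕ} (T : Finset (Fin n)) : ∀ (ls : List Level) (i : ℕ),
    HoldsSuf T i ls → HoldsPos T i ls → HoldsNeg T i ls → Holds T i ls := by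
  intro ls
  induction ls with
  | nil => intro i _ _ _; trivial
  | cons l rest ih =>
    intro i h1 h2 h3
    exact ⟨h1.1, h2.1, h3.1, ih _ h1.2 h2.2 h3.2⟩

theorem holds_strip {n : ℕ} (T : Finset (Fin n)) : ∀ (ls : List Level) (i : ℕ),
    HoldsSuf T i ls → HoldsNeg T i ls → Holds T i (strip ls) := by
  intro ls
  induction ls with
  | nil => intro i _ _; trivial
  | cons l rest ih =>
    intro i h1 h3
    exact ⟨h1.1, fun _ _ => rfl, h3.1, ih _ h1.2 h3.2⟩

theorem strip_length : ∀ ls : List Level, (strip ls).length = ls.length := by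
  intro ls
  induction ls with
  | nil => rfl
  | cons l rest ih => simp [strip, ih]

/-- Soundness of the suffix bounds, for a hereditary property `P`. -/
theorem dolls_sound {n : ℕ} (P : Finset (Fin n) → Prop)
    (hP : ∀ T U, P T → U ⊆ T → P U) :
    ∀ (ls : List Level) (i R : ℕ), (∀ T, P T → HoldsNeg T i ls) → i + ls.length = n →
      dolls ls (2 ^ i) R = true → ∀ T, P T → suf T i ≤ R ∧ HoldsSuf T i ls := by
  intro ls
  induction ls with
  | nil =>
    intro i R _ hlen _ T _
    refine ⟨?_, trivial⟩
    have : suf T i = 0 := by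
      unfold suf
      rw [Finset.card_eq_zero, Finset.filter_eq_empty_iff]
      intro j _ hj
      have := j.2
      simp at hlen
      omega
    omega
  | cons l rest ih =>
    intro i R hneg hlen h T hT
    have hlen' : i + 1 + rest.length = n := by simp at hlen; omega
    have hpow : Nat.mul 2 (2 ^ i) = 2 ^ (i + 1) := by
      rw [pow_succ, mul_comm]; rfl
    rw [dolls, hpow, Bool.and_eq_true, Bool.or_eq_true] at h
    obtain ⟨h1, h2⟩ := h
    have key : ∀ T, P T → suf T (i + 1) ≤ l.1 ∧ HoldsSuf T (i + 1) rest :=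
      fun T hT => ih (i + 1) l.1 (fun T hT => (hneg T hT).2) hlen' h2 T hT
    have hsufT : HoldsSuf T i (l :: rest) := ⟨(key T hT).1, (key T hT).2⟩
    refine ⟨?_, hsufT⟩
    rcases h1 with h1 | h1
    · have h3 := suf_le_succ T i
      have h4 := (key T hT).1
      have h5 : l.1 + 1 ≤ R := by simpa [Nat.ble_eq] using h1
      omega
    · -- restrict to the part at or above `i`
      set U : Finset (Fin n) := T.filter (fun j : Fin n => i ≤ (j : ℕ)) with hU
      have hPU : P U := hP T U hT (Finset.filter_subset _ _)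
      have hUc : U.card = suf T i := rfl
      have hcnt : cnt U i = 0 := by
        unfold cnt
        rw [Finset.card_eq_zero, Finset.filter_eq_empty_iff]
        intro j hj hj'
        have := (Finset.mem_filter.mp hj).2
        omega
      have hrep : Rep U i 0 := by
        intro j
        rw [Nat.zero_testBit]
        constructor
        · intro h; exact absurd h (by simp)
        · rintro ⟨h1, h2, h3⟩
          have := (Finset.mem_filter.mp h3).2
          simp at this
          omega
      have hsufU : HoldsSuf U i (l :: rest) := ⟨(key U hPU).1, (key U hPU).2⟩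
      have := dfs_sound U (R + 1) (strip (l :: rest)) i 0 0
        (holds_strip U _ _ hsufU (hneg U hPU)) (by rw [strip_length]; exact hlen) hrep hcnt h1
      omega

/-- The final theorem of the engine. -/
theorem engine {n : ℕ} (P : Finset (Fin n) → Prop)
    (hP : ∀ T U, P T → U ⊆ T → P U) (ls : List Level) (R t : ℕ)
    (hneg : ∀ T, P T → HoldsNeg T 0 ls) (hlen : ls.length = n)
    (hd : dolls ls 1 R = true) (T : Finset (Fin n)) (hT : P T) (hpos : HoldsPos T 0 ls)
    (hf : dfs t ls 1 0 0 = true) : T.card < t := by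
  have h1 := dolls_sound P hP ls 0 R hneg (by omega) hd T hT
  refine dfs_sound T t ls 0 0 0 (holds_of T ls 0 h1.2 hpos (hneg T hT)) (by omega) ?_ ?_ hf
  · intro j
    rw [Nat.zero_testBit]
    constructor
    · intro h; exact absurd h (by simp)
    · rintro ⟨h, _⟩; omega
  · unfold cnt
    rw [Finset.card_eq_zero, Finset.filter_eq_empty_iff]
    intro j _ hj
    omega

end Pool.Agent.Lib.MP_93f3b8_co
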