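import Pool.Agent.Lib.MP_93f3b8_co.Defs
import Pool.Agent.Lib.MP_93f3b8_co.Engine

/-!
# Graphs on `Fin n` given by closed neighbourhood masks, and clauses for the four searches
-/

namespace Pool.Agent.Lib.MP_93f3b8_co

/-- the closed neighbourhood mask of `v` -/
def msk (L : List ℕ) (v : ℕ) : ℕ := L.getD v 0

/-- the graph given by the list `L` of closed neighbourhood masks -/
def gr (n : ℕ) (L : List ℕ) : SimpleGraph (Fin n) where
  Adj u v := u ≠ v ∧ (msk L u).testBit v = true ∧ (msk L v).testBit u = true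
  symm := ⟨fun _ _ h => ⟨h.1.symm, h.2.2, h.2.1⟩⟩
  loopless := ⟨fun _ h => h.1 rfl⟩

instance (n : ℕ) (L : List ℕ) : DecidableRel (gr n L).Adj := fun u v =>
  inferInstanceAs (Decidable (u ≠ v ∧ (msk L u).testBit v = true ∧ (msk L v).testBit u = true))

instance (n : ℕ) (L : List ℕ) (u v : Fin n) : Decidable (Cl (gr n L) u v) :=
  inferInstanceAs (Decidable (v = u ∨ (gr n L).Adj u v))

/-- the masks are symmetric and reflexive -/
def Good (n : ℕ) (L : List ℕ) : Prop :=
  (∀ u v : Fin n, (msk L u).testBit v = (msk L v).testBit u) ∧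
    ∀ u : Fin n, (msk L u).testBit u = true

theorem cl_iff {n : ℕ} {L : List ℕ} (h : Good n L) (v u : Fin n) :
    Cl (gr n L) v u ↔ (msk L v).testBit u = true := by
  constructor
  · rintro (h1 | h1)
    · rw [h1]; exact h.2 v
    · exact h1.2.1
  · intro h1
    by_cases huv : u = v
    · exact Or.inl huv
    · exact Or.inr ⟨fun h2 => huv h2.symm, h1, by rw [← h.1]; exact h1⟩

theorem land_ne_zero {m c : ℕ} (h : Nat.beq (Nat.land m c) 0 = false) :
    ∃ j, m.testBit j = true ∧ c.testBit j = true := by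
  by_contra hcon
  push Not at hcon
  have : m &&& c = 0 := by
    apply Nat.zero_of_testBit_eq_false
    intro j
    rw [Nat.testBit_and]
    by_cases h1 : m.testBit j = true
    · have := hcon j h1
      simp only [Bool.not_eq_true] at this
      rw [this, Bool.and_false]
    · simp only [Bool.not_eq_true] at h1
      rw [h1, Bool.false_and]
  have h2 : Nat.beq (Nat.land m c) 0 = true := by
    rw [Nat.beq_eq]; exact this
  rw [h2] at h
  exact absurd h (by simp)

theorem land_zero {m c : ℕ} (h : Nat.beq (Nat.land m c) 0 = true) (j : ℕ)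
    (h1 : m.testBit j = true) : c.testBit j = false := by
  have h2 : m &&& c = 0 := by rwa [Nat.beq_eq] at h
  have h3 : (m &&& c).testBit j = false := by rw [h2, Nat.zero_testBit]
  rw [Nat.testBit_and, h1, Bool.true_and] at h3
  exact h3

theorem meetsAll_mem {m : ℕ} : ∀ {cs : List ℕ}, meetsAll m cs = true → ∀ c ∈ cs,
    ∃ j, m.testBit j = true ∧ c.testBit j = true := by
  intro cs
  induction cs with
  | nil => intro _ c hc; exact absurd hc (by simp)
  | cons d t ih =>
    intro h c hc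
    rw [meetsAll, Bool.and_eq_true] at h
    rcases List.mem_cons.mp hc with h1 | h1
    · subst h1
      exact land_ne_zero (by simpa using h.1)
    · exact ih h.2 c h1

/-- a clause is sound for `T` when it does not fire on any partial mask of `T` -/
def Sound {n : ℕ} (T : Finset (Fin n)) (p : Neg) : Prop :=
  ¬ ((∃ j, (2 ^ j = p.1) ∧ ∃ h : j < n, (⟨j, h⟩ : Fin n) ∈ T) ∧
    ∀ c ∈ p.2, ∃ j, c.testBit j = true ∧ ∃ h : j < n, (⟨j, h⟩ : Fin n) ∈ T)

theorem fires_false {n : ℕ} {T : Finset (Fin n)} {i m : ℕ} (hR : Rep T i m) :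
    ∀ ps : List Neg, (∀ p ∈ ps, (∃ j, 2 ^ j = p.1) ∧ Sound T p) → fires m ps = false := by
  intro ps
  induction ps with
  | nil => intro _; rfl
  | cons p t ih =>
    intro h
    rw [fires, ih (fun q hq => h q (List.mem_cons_of_mem _ hq)), Bool.or_false]
    by_contra hcon
    rw [Bool.not_eq_false, Bool.and_eq_true] at hcon
    obtain ⟨⟨j, hj⟩, hs⟩ := h p List.mem_cons_self
    apply hs
    constructor
    · obtain ⟨q, hq1, hq2⟩ := land_ne_zero (m := m) (c := p.1) (by simpa using hcon.1)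
      rw [← hj, Nat.testBit_two_pow, decide_eq_true_eq] at hq2
      subst hq2
      exact ⟨j, hj, ((hR j).mp hq1).2⟩
    · intro c hc
      obtain ⟨q, hq1, hq2⟩ := meetsAll_mem hcon.2 c hc
      exact ⟨q, hq2, ((hR q).mp hq1).2⟩

/-- check of all negative clauses of the levels -/
def allNeg (f : Neg → Bool) : List Level → Bool
  | [] => true
  | l :: rest => l.2.2.all f && allNeg f rest

theorem holdsNeg_of {n : ℕ} {T : Finset (Fin n)} (f : Neg → Bool)
    (hf : ∀ p, f p = true → (∃ j, 2 ^ j = p.1) ∧ Sound T p) :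
    ∀ (ls : List Level) (i : ℕ), allNeg f ls = true → HoldsNeg T i ls := by
  intro ls
  induction ls with
  | nil => intro _ _; trivial
  | cons l rest ih =>
    intro i h
    rw [allNeg, Bool.and_eq_true, List.all_eq_true] at h
    exact ⟨fun m hm => fires_false hm _ (fun p hp => hf p (h.1 p hp)), ih _ h.2⟩

/-- check of all positive clauses of the levels -/
def allPos (f : ℕ → ℕ → Bool) : ℕ → List Level → Bool
  | _, [] => true
  | i, l :: rest => l.2.1.all (f i) && allPos f (i + 1) rest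

theorem holdsPos_of {n : ℕ} {T : Finset (Fin n)} (f : ℕ → ℕ → Bool)
    (hf : ∀ i c, f i c = true → ∃ j, j < i + 1 ∧ c.testBit j = true ∧
      ∃ h : j < n, (⟨j, h⟩ : Fin n) ∈ T) :
    ∀ (ls : List Level) (i : ℕ), allPos f i ls = true → HoldsPos T i ls := by
  intro ls
  induction ls with
  | nil => intro _ _; trivial
  | cons l rest ih =>
    intro i h
    rw [allPos, Bool.and_eq_true, List.all_eq_true] at h
    refine ⟨fun m hm => ?_, ih _ h.2⟩
    have key : ∀ cs : List ℕ, (∀ c ∈ cs, f i c = true) → misses m cs = false := by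
      intro cs
      induction cs with
      | nil => intro _; rfl
      | cons c t iht =>
        intro hc
        rw [misses, iht (fun d hd => hc d (List.mem_cons_of_mem _ hd)), Bool.or_false]
        by_contra hcon
        rw [Bool.not_eq_false] at hcon
        obtain ⟨j, h1, h2, h3⟩ := hf i c (hc c List.mem_cons_self)
        have h4 : m.testBit j = true := (hm j).mpr ⟨h1, h3⟩
        have h5 := land_zero hcon j h4
        rw [h2] at h5
        exact absurd h5 (by simp)
    exact key _ h.1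

/-! ## The clauses of the four searches -/

/-- check of a negative clause for irredundant sets -/
def okIrr (n : ℕ) (L : List ℕ) (p : Neg) : Bool :=
  (List.range n).any (fun v => Nat.beq (2 ^ v) p.1 &&
    (List.range n).all (fun u => !(msk L v).testBit u ||
      p.2.any (fun c => Nat.beq (c &&& msk L u) c && !c.testBit v)))

theorem okIrr_sound {n : ℕ} {L : List ℕ} (hL : Good n L) {T : Finset (Fin n)}
    (hT : IsIrr (gr n L) T) (p : Neg) (h : okIrr n L p = true) :
    (∃ j, 2 ^ j = p.1) ∧ Sound T p := by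
  rw [okIrr, List.any_eq_true] at h
  obtain ⟨v, hv, h⟩ := h
  rw [Bool.and_eq_true, List.all_eq_true, Nat.beq_eq] at h
  obtain ⟨h1, h2⟩ := h
  have hv' : v < n := List.mem_range.mp hv
  refine ⟨⟨v, h1⟩, ?_⟩
  rintro ⟨⟨j, hj, hjn, hjT⟩, hcs⟩
  have hjv : j = v := Nat.pow_right_injective (le_refl 2) (hj.trans h1.symm)
  subst hjv
  obtain ⟨u, hu1, hu2⟩ := hT _ hjT
  have h3 := h2 u (List.mem_range.mpr u.2)
  rw [cl_iff hL] at hu1
  have hu1' : (msk L j).testBit (u : ℕ) = true := hu1
  rw [hu1', Bool.not_true, Bool.false_or, List.any_eq_true] at h3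
  obtain ⟨c, hc, h4⟩ := h3
  rw [Bool.and_eq_true, Nat.beq_eq] at h4
  obtain ⟨w, hw1, hwn, hwT⟩ := hcs c hc
  have h5 : (c &&& msk L u).testBit w = true := by rw [h4.1]; exact hw1
  rw [Nat.testBit_and, Bool.and_eq_true] at h5
  refine hu2 ⟨w, hwn⟩ hwT ?_ ?_
  · intro h6
    have : w = j := congrArg Fin.val h6
    subst this
    rw [hw1] at h4
    exact absurd h4.2 (by simp)
  · rw [cl_iff hL, hL.1]
    exact h5.2

/-- check of a negative clause for independent sets -/
def okInd (n : ℕ) (L : List ℕ) (p : Neg) : Bool :=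
  (List.range n).any (fun v => Nat.beq (2 ^ v) p.1 &&
    (List.range n).any (fun w => !(Nat.beq v w) && (msk L v).testBit w &&
      p.2.any (fun c => Nat.beq (2 ^ w) c)))

theorem okInd_sound {n : ℕ} {L : List ℕ} (hL : Good n L) {T : Finset (Fin n)}
    (hT : IsInd (gr n L) T) (p : Neg) (h : okInd n L p = true) :
    (∃ j, 2 ^ j = p.1) ∧ Sound T p := by
  rw [okInd, List.any_eq_true] at h
  obtain ⟨v, hv, h⟩ := h
  rw [Bool.and_eq_true, List.any_eq_true, Nat.beq_eq] at h
  obtain ⟨h1, w, hw, h2⟩ := h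
  rw [Bool.and_eq_true, Bool.and_eq_true, List.any_eq_true] at h2
  obtain ⟨⟨hvw, hadj⟩, c, hc, hcw⟩ := h2
  rw [Nat.beq_eq] at hcw
  refine ⟨⟨v, h1⟩, ?_⟩
  rintro ⟨⟨j, hj, hjn, hjT⟩, hcs⟩
  have hjv : j = v := Nat.pow_right_injective (le_refl 2) (hj.trans h1.symm)
  subst hjv
  obtain ⟨q, hq1, hqn, hqT⟩ := hcs c hc
  rw [← hcw, Nat.testBit_two_pow, decide_eq_true_eq] at hq1
  subst hq1
  have hne : (⟨j, hjn⟩ : Fin n) ≠ ⟨w, hqn⟩ := by
    intro h6
    have h7 : j = w := congrArg Fin.val h6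
    rw [h7, Nat.beq_refl] at hvw
    exact absurd hvw (by simp)
  exact hT _ hjT _ hqT ⟨hne, hadj, (by
    have := hL.1 ⟨j, hjn⟩ ⟨w, hqn⟩
    rw [← this]; exact hadj)⟩

/-- check of a negative clause for complements of dominating sets -/
def okDom (n : ℕ) (L : List ℕ) (p : Neg) : Bool :=
  (List.range n).any (fun v => Nat.beq (2 ^ v) p.1) &&
  (List.range n).any (fun u => (List.range n).all (fun w => !(msk L u).testBit w ||
      (Nat.beq (2 ^ w) p.1 || p.2.any (fun c => Nat.beq (2 ^ w) c))))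

theorem okDom_sound {n : ℕ} {L : List ℕ} (hL : Good n L) {T : Finset (Fin n)}
    (hT : IsDom (gr n L) Tᶜ) (p : Neg) (h : okDom n L p = true) :
    (∃ j, 2 ^ j = p.1) ∧ Sound T p := by
  rw [okDom, Bool.and_eq_true, List.any_eq_true, List.any_eq_true] at h
  obtain ⟨⟨v, hv, hvp⟩, u, hu, h⟩ := h
  rw [Nat.beq_eq] at hvp
  rw [List.all_eq_true] at h
  have hu' : u < n := List.mem_range.mp hu
  refine ⟨⟨v, hvp⟩, ?_⟩
  rintro ⟨⟨j, hj, hjn, hjT⟩, hcs⟩
  obtain ⟨w, hwT, hw⟩ := hT ⟨u, hu'⟩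
  rw [Finset.mem_compl] at hwT
  rw [cl_iff hL, hL.1] at hw
  have h1 := h w (List.mem_range.mpr w.2)
  have hw' : (msk L u).testBit (w : ℕ) = true := hw
  rw [hw', Bool.not_true, Bool.false_or, Bool.or_eq_true, Nat.beq_eq, List.any_eq_true] at h1
  apply hwT
  rcases h1 with h1 | ⟨c, hc, hcw⟩
  · have hjw : j = w := Nat.pow_right_injective (le_refl 2) (hj.trans h1.symm)
    have : w = (⟨j, hjn⟩ : Fin n) := Fin.ext hjw.symm
    rw [this]; exact hjT
  · rw [Nat.beq_eq] at hcw
    obtain ⟨q, hq1, hqn, hqT⟩ := hcs c hc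
    rw [← hcw, Nat.testBit_two_pow, decide_eq_true_eq] at hq1
    have : w = (⟨q, hqn⟩ : Fin n) := Fin.ext hq1
    rw [this]; exact hqT

/-- check of a positive clause for dominating sets -/
def posDom (n : ℕ) (L : List ℕ) (i c : ℕ) : Bool :=
  Nat.blt c (2 ^ (i + 1)) && (List.range n).any (fun u => Nat.beq (msk L u) c)

theorem posDom_sound {n : ℕ} {L : List ℕ} (hL : Good n L) {T : Finset (Fin n)}
    (hT : IsDom (gr n L) T) (i c : ℕ) (h : posDom n L i c = true) :
    ∃ j, j < i + 1 ∧ c.testBit j = true ∧ ∃ h : j < n, (⟨j, h⟩ : Fin n) ∈ T := by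
  rw [posDom, Bool.and_eq_true, List.any_eq_true, Nat.blt_eq] at h
  obtain ⟨h1, u, hu, h2⟩ := h
  rw [Nat.beq_eq] at h2
  obtain ⟨w, hwT, hw⟩ := hT ⟨u, List.mem_range.mp hu⟩
  rw [cl_iff hL, hL.1] at hw
  have hw' : c.testBit (w : ℕ) = true := by rw [← h2]; exact hw
  refine ⟨w, ?_, hw', w.2, hwT⟩
  by_contra hcon
  have : c < 2 ^ (w : ℕ) := lt_of_lt_of_le h1 (Nat.pow_le_pow_right (by norm_num) (by omega))
  rw [Nat.testBit_lt_two_pow this] at hw'
  exact absurd hw' (by simp)

/-- check of a positive clause for complements of independent sets -/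
def posInd (n : ℕ) (L : List ℕ) (i c : ℕ) : Bool :=
  Nat.blt c (2 ^ (i + 1)) && (List.range n).any (fun u => (List.range n).any (fun w =>
    !(Nat.beq u w) && (msk L u).testBit w && Nat.beq (2 ^ u ||| 2 ^ w) c))

theorem posInd_sound {n : ℕ} {L : List ℕ} (hL : Good n L) {T : Finset (Fin n)}
    (hT : IsInd (gr n L) Tᶜ) (i c : ℕ) (h : posInd n L i c = true) :
    ∃ j, j < i + 1 ∧ c.testBit j = true ∧ ∃ h : j < n, (⟨j, h⟩ : Fin n) ∈ T := by
  rw [posInd, Bool.and_eq_true, List.any_eq_true, Nat.blt_eq] at h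
  obtain ⟨h1, u, hu, h2⟩ := h
  rw [List.any_eq_true] at h2
  obtain ⟨w, hw, h2⟩ := h2
  rw [Bool.and_eq_true, Bool.and_eq_true, Nat.beq_eq] at h2
  obtain ⟨⟨huw, hadj⟩, hc⟩ := h2
  have hu' : u < n := List.mem_range.mp hu
  have hw' : w < n := List.mem_range.mp hw
  have hcu : c.testBit u = true := by
    rw [← hc, Nat.testBit_or, Nat.testBit_two_pow]; simp
  have hcw : c.testBit w = true := by
    rw [← hc, Nat.testBit_or, Nat.testBit_two_pow, Nat.testBit_two_pow]; simp
  have hlt : ∀ j, c.testBit j = true → j < i + 1 := by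
    intro j hj
    by_contra hcon
    have : c < 2 ^ j := lt_of_lt_of_le h1 (Nat.pow_le_pow_right (by norm_num) (by omega))
    rw [Nat.testBit_lt_two_pow this] at hj
    exact absurd hj (by simp)
  by_cases hmem : (⟨u, hu'⟩ : Fin n) ∈ T
  · exact ⟨u, hlt u hcu, hcu, hu', hmem⟩
  · by_cases hmem2 : (⟨w, hw'⟩ : Fin n) ∈ T
    · exact ⟨w, hlt w hcw, hcw, hw', hmem2⟩
    · exfalso
      refine hT ⟨u, hu'⟩ (Finset.mem_compl.mpr hmem) ⟨w, hw'⟩ (Finset.mem_compl.mpr hmem2) ?_
      refine ⟨?_, hadj, ?_⟩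
      · intro h6
        have h7 : u = w := congrArg Fin.val h6
        rw [h7, Nat.beq_refl] at huw
        exact absurd huw (by simp)
      · have := hL.1 ⟨u, hu'⟩ ⟨w, hw'⟩
        rw [← this]; exact hadj

end Pool.Agent.Lib.MP_93f3b8_co
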